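import Pool.Agent.Q109.Tough.Main

set_option autoImplicit false

namespace Pool.Agent.Results.MP_f8058f_co.MaxToughness

open Q109.Tough
open scoped ENNReal

/-- The maximum toughness of a minimally tough co-chordal graph with co-diameter two is `1 / 2`; it
is attained, and only by the net `T 1`. -/
theorem result :
    IsGreatest {x : ℝ≥0∞ | ∃ (V : Type) (_ : Fintype V) (G : SimpleGraph V),
      IsChordal Gᶜ ∧ CoDiamTwo G ∧ MinTough G ∧ toughness G = x} (1 / 2) ∧
    ∀ (V : Type) [Fintype V] (G : SimpleGraph V), IsChordal Gᶜ → CoDiamTwo G → MinTough G →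
      (toughness G = 1 / 2 ↔ Nonempty (G ≃g T 1)) :=
  max_toughness

end Pool.Agent.Results.MP_f8058f_co.MaxToughness
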